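import Pool.Agent.MP_a9a483_co.DS

namespace Pool.Agent.Results.MP_a9a483_co.DoubleSplit

open SimpleGraph Pool.Agent.MP_a9a483_co

/-- For every `k ≥ 3` there is an even-pair-free Berge graph on `4 * k` vertices such that neither
it nor its complement is the line graph of a bipartite graph and neither it nor its complement has
a 2-join. -/
theorem result : ∀ k : ℕ, 3 ≤ k →
    ∃ (V : Type) (_ : Fintype V) (G : SimpleGraph V), Fintype.card V = 4 * k ∧
      IsBerge G ∧ EvenPairFree G ∧
      ¬ IsLineGraphOfBipartite G ∧ ¬ IsLineGraphOfBipartite Gᶜ ∧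
      ¬ HasTwoJoin G ∧ ¬ HasTwoJoin Gᶜ := by
  intro k hk
  have hrow : ∀ i i' : Fin k, i ≠ i' → ∀ b : Bool, ∃ j : Fin k,
      decide (i = j) ≠ (decide (i' = j) != b) := by
    intro i i' hii b
    cases b
    · refine ⟨i, ?_⟩
      simp [hii.symm]
    · obtain ⟨j, hj, hj'⟩ : ∃ j : Fin k, j ≠ i ∧ j ≠ i' := by
        by_contra hcon
        push Not at hcon
        have : (Finset.univ : Finset (Fin k)) ⊆ {i, i'} := by
          intro j _
          by_cases h1 : j = i
          · simp [h1]
          · simp [hcon j h1]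
        have h2 := Finset.card_le_card this
        have h3 : ({i, i'} : Finset (Fin k)).card ≤ 2 := Finset.card_le_two
        simp only [Finset.card_univ, Fintype.card_fin] at h2
        omega
      refine ⟨j, ?_⟩
      simp [hj.symm, hj'.symm]
  have hcol : ∀ j j' : Fin k, j ≠ j' → ∀ b : Bool, ∃ i : Fin k,
      decide (i = j) ≠ (decide (i = j') != b) := by
    intro j j' hjj b
    obtain ⟨i, hi⟩ := hrow j j' hjj b
    refine ⟨i, ?_⟩
    simpa only [eq_comm] using hi
  refine ⟨DV k k, inferInstance, DS (fun i j => decide (i = j)), ?_, berge _,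
    evenPairFree (by omega) (by omega) hrow, not_lineGraph hk, not_lineGraph_compl hk,
    not_hasTwoJoin hk hrow, not_hasTwoJoin_compl hk hcol⟩
  simp
  omega

end Pool.Agent.Results.MP_a9a483_co.DoubleSplit
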